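import Mathlib
import Pool.Agent.K4H25.FH.Spec

/-!
Fractional Gaussian noise, `1 / 2 < H < 1`: signs of the covariances and of their differences.
-/

set_option autoImplicit false

namespace Pool.Agent.K4H25.FH

open Finset

namespace Phi1

/-- second difference of a power -/
noncomputable def E (p y : ℝ) : ℝ := (y + 2) ^ p - 2 * (y + 1) ^ p + y ^ p

/-- first difference of a power -/
noncomputable def G (p y : ℝ) : ℝ := (y + 1) ^ p - y ^ p

lemma hasDerivAt_E (p y : ℝ) (hy : 0 < y) : HasDerivAt (E p) (p * E (p - 1) y) y := by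
  have h2 : HasDerivAt (fun x : ℝ => (x + 2) ^ p) (p * (y + 2) ^ (p - 1)) y :=
    (Real.hasDerivAt_rpow_const (Or.inl (by positivity : y + 2 ≠ 0))).comp_add_const y 2
  have h1 : HasDerivAt (fun x : ℝ => (x + 1) ^ p) (p * (y + 1) ^ (p - 1)) y :=
    (Real.hasDerivAt_rpow_const (Or.inl (by positivity : y + 1 ≠ 0))).comp_add_const y 1
  have h0 : HasDerivAt (fun x : ℝ => x ^ p) (p * y ^ (p - 1)) y :=
    Real.hasDerivAt_rpow_const (Or.inl hy.ne')
  have h := (h2.sub (h1.const_mul 2)).add h0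
  have e : p * E (p - 1) y = p * (y + 2) ^ (p - 1) - 2 * (p * (y + 1) ^ (p - 1)) +
      p * y ^ (p - 1) := by unfold E; ring
  rw [e]
  exact h

lemma hasDerivAt_G (p y : ℝ) (hy : 0 < y) : HasDerivAt (G p) (p * G (p - 1) y) y := by
  have h1 : HasDerivAt (fun x : ℝ => (x + 1) ^ p) (p * (y + 1) ^ (p - 1)) y :=
    (Real.hasDerivAt_rpow_const (Or.inl (by positivity : y + 1 ≠ 0))).comp_add_const y 1
  have h0 : HasDerivAt (fun x : ℝ => x ^ p) (p * y ^ (p - 1)) y :=
    Real.hasDerivAt_rpow_const (Or.inl hy.ne')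
  have h := h1.sub h0
  have e : p * G (p - 1) y = p * (y + 1) ^ (p - 1) - p * y ^ (p - 1) := by unfold G; ring
  rw [e]
  exact h

lemma cont_E (p : ℝ) (hp : 0 < p) : Continuous (E p) := by
  have h := Real.continuous_rpow_const hp.le
  have h2 : Continuous (fun y : ℝ => (y + 2) ^ p) := h.comp (continuous_id.add continuous_const)
  have h1 : Continuous (fun y : ℝ => (y + 1) ^ p) := h.comp (continuous_id.add continuous_const)
  exact (h2.sub (continuous_const.mul h1)).add h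

lemma cont_G (p : ℝ) (hp : 0 < p) : Continuous (G p) := by
  have h := Real.continuous_rpow_const hp.le
  have h1 : Continuous (fun y : ℝ => (y + 1) ^ p) := h.comp (continuous_id.add continuous_const)
  exact h1.sub h

lemma E_nonneg (q y : ℝ) (hq : q < 0) (hy : 0 < y) : 0 ≤ E q y := by
  unfold E
  have h1 : (y + 1) ^ q ≤ (y + 2) ^ (q / 2) * y ^ (q / 2) := by
    rw [← Real.mul_rpow (by positivity) hy.le]
    have h2 : (y + 1) ^ q = ((y + 1) ^ (2 : ℝ)) ^ (q / 2) := by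
      rw [← Real.rpow_mul (by positivity)]; congr 1; ring
    rw [h2]
    apply Real.rpow_le_rpow_of_nonpos (by positivity) _ (by linarith)
    rw [Real.rpow_two]; nlinarith
  have h3 : (y + 2) ^ q = ((y + 2) ^ (q / 2)) ^ 2 := by
    rw [← Real.rpow_natCast, ← Real.rpow_mul (by positivity)]; congr 1; push_cast; ring
  have h4 : y ^ q = (y ^ (q / 2)) ^ 2 := by
    rw [← Real.rpow_natCast, ← Real.rpow_mul hy.le]; congr 1; push_cast; ring
  rw [h3, h4]
  nlinarith [sq_nonneg ((y + 2) ^ (q / 2) - y ^ (q / 2))]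

lemma mono_E (r : ℝ) (h0 : 0 < r) (h1 : r < 1) : MonotoneOn (E r) (Set.Ici 0) := by
  apply monotoneOn_of_deriv_nonneg (convex_Ici 0) (cont_E r h0).continuousOn
  · intro y hy
    rw [interior_Ici] at hy
    exact (hasDerivAt_E r y hy).differentiableAt.differentiableWithinAt
  · intro y hy
    rw [interior_Ici] at hy
    rw [(hasDerivAt_E r y hy).deriv]
    exact mul_nonneg h0.le (E_nonneg _ y (by linarith) hy)

lemma convex_E (s : ℝ) (h1 : 1 < s) (h2 : s < 2) : ConvexOn ℝ (Set.Ici 0) (E s) := by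
  apply MonotoneOn.convexOn_of_deriv (convex_Ici 0) (cont_E s (by linarith)).continuousOn
  · intro y hy
    rw [interior_Ici] at hy
    exact (hasDerivAt_E s y hy).differentiableAt.differentiableWithinAt
  · intro x hx y hy hxy
    rw [interior_Ici] at hx hy
    rw [(hasDerivAt_E s x hx).deriv, (hasDerivAt_E s y hy).deriv]
    exact mul_le_mul_of_nonneg_left
      (mono_E (s - 1) (by linarith) (by linarith) (Set.mem_Ici.2 (le_of_lt hx))
        (Set.mem_Ici.2 (le_of_lt hy)) hxy) (by linarith)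

lemma anti_G (r : ℝ) (h0 : 0 < r) (h1 : r < 1) : StrictAntiOn (G r) (Set.Ici 0) := by
  apply strictAntiOn_of_deriv_neg (convex_Ici 0) (cont_G r h0).continuousOn
  intro y hy
  rw [interior_Ici] at hy
  rw [(hasDerivAt_G r y hy).deriv]
  have hy' : (0 : ℝ) < y := hy
  have : (y + 1) ^ (r - 1) < y ^ (r - 1) :=
    Real.rpow_lt_rpow_of_neg hy' (by linarith) (by linarith)
  unfold G
  nlinarith

lemma concave_G (s : ℝ) (h1 : 1 < s) (h2 : s < 2) : StrictConcaveOn ℝ (Set.Ici 0) (G s) := by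
  apply StrictAntiOn.strictConcaveOn_of_deriv (convex_Ici 0) (cont_G s (by linarith)).continuousOn
  intro x hx y hy hxy
  rw [interior_Ici] at hx hy
  rw [(hasDerivAt_G s x hx).deriv, (hasDerivAt_G s y hy).deriv]
  exact mul_lt_mul_of_pos_left
    (anti_G (s - 1) (by linarith) (by linarith) (Set.mem_Ici.2 (le_of_lt hx))
      (Set.mem_Ici.2 (le_of_lt hy)) hxy) (by linarith)

lemma mid_E (s a : ℝ) (h1 : 1 < s) (h2 : s < 2) (ha : 0 ≤ a) :
    0 ≤ E s (a + 2) - 2 * E s (a + 1) + E s a := by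
  have h := (convex_E s h1 h2).2 (Set.mem_Ici.2 ha) (Set.mem_Ici.2 (by linarith : 0 ≤ a + 2))
    (by norm_num : (0 : ℝ) ≤ 1 / 2) (by norm_num : (0 : ℝ) ≤ 1 / 2) (by norm_num)
  have e : (1 / 2 : ℝ) • a + (1 / 2 : ℝ) • (a + 2) = a + 1 := by
    simp only [smul_eq_mul]; ring
  rw [e] at h
  simp only [smul_eq_mul] at h
  linarith

lemma mid_G (s a : ℝ) (h1 : 1 < s) (h2 : s < 2) (ha : 0 ≤ a) :
    G s (a + 2) + G s a < 2 * G s (a + 1) := by
  have h := (concave_G s h1 h2).2 (Set.mem_Ici.2 ha) (Set.mem_Ici.2 (by linarith : 0 ≤ a + 2))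
    (by linarith : a ≠ a + 2) (by norm_num : (0 : ℝ) < 1 / 2) (by norm_num : (0 : ℝ) < 1 / 2)
    (by norm_num)
  have e : (1 / 2 : ℝ) • a + (1 / 2 : ℝ) • (a + 2) = a + 1 := by
    simp only [smul_eq_mul]; ring
  rw [e] at h
  simp only [smul_eq_mul] at h
  linarith

lemma gam_neg (H : ℝ) (j : ℤ) : gam H (-j) = gam H j := by
  unfold gam
  push_cast
  have e1 : |(-(j : ℝ)) + 1| = |(j : ℝ) - 1| := by
    rw [← abs_neg]; congr 1; ring
  have e2 : |(-(j : ℝ)) - 1| = |(j : ℝ) + 1| := by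
    rw [← abs_neg]; congr 1; ring
  rw [e1, e2, abs_neg]
  ring

lemma dlt_neg (H : ℝ) (j : ℤ) : dlt H (-j) = dlt H j := by
  unfold dlt
  have e1 : -j + 1 = -(j - 1) := by ring
  have e2 : -j - 1 = -(j + 1) := by ring
  rw [e1, e2, gam_neg, gam_neg, gam_neg]
  ring

lemma gam_succ (H : ℝ) (n : ℕ) : gam H ((n : ℤ) + 1) = E (2 * H) n / 2 := by
  unfold gam E
  push_cast
  have hn : (0 : ℝ) ≤ n := Nat.cast_nonneg n
  rw [abs_of_nonneg (by linarith : (0 : ℝ) ≤ (n : ℝ) + 1 + 1),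
    abs_of_nonneg (by linarith : (0 : ℝ) ≤ (n : ℝ) + 1),
    abs_of_nonneg (by linarith : (0 : ℝ) ≤ (n : ℝ) + 1 - 1)]
  have e1 : (n : ℝ) + 1 + 1 = n + 2 := by ring
  have e2 : (n : ℝ) + 1 - 1 = n := by ring
  rw [e1, e2]

lemma gam_zero (H : ℝ) (h : 1 / 2 < H) : gam H 0 = 1 := by
  unfold gam
  have h0 : (0 : ℝ) ^ (2 * H) = 0 := Real.zero_rpow (by linarith)
  simp [h0]

/-- `7 + 3 ^ s > 4 * 2 ^ s` for `s < 2` -/
lemma three_two (s : ℝ) (hs : s < 2) : 4 * (2 : ℝ) ^ s < 3 ^ s + 7 := by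
  set t : ℝ := 2 - s with ht
  have ht0 : 0 < t := by linarith
  have l2 : 0 < Real.log 2 := Real.log_pos (by norm_num)
  set p : ℝ := Real.log 3 / Real.log 2 with hp
  have hp1 : 1 ≤ p := by
    rw [hp, one_le_div l2]
    exact Real.log_le_log (by norm_num) (by norm_num)
  have hp2 : 9 * p < 16 := by
    have h1 : Real.log ((3 : ℝ) ^ 9) < Real.log ((2 : ℝ) ^ 16) :=
      Real.log_lt_log (by norm_num) (by norm_num)
    rw [Real.log_pow, Real.log_pow] at h1
    push_cast at h1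
    rw [hp, ← mul_div_assoc, div_lt_iff₀ l2]
    exact h1
  set z : ℝ := (2 : ℝ) ^ (-t) with hz
  have hz0 : 0 < z := by positivity
  have hz1 : z < 1 := Real.rpow_lt_one_of_one_lt_of_neg (by norm_num) (by linarith)
  have hzp : z ^ p = (3 : ℝ) ^ (-t) := by
    rw [hz, ← Real.rpow_mul (by norm_num), Real.rpow_def_of_pos (by norm_num),
      Real.rpow_def_of_pos (by norm_num)]
    congr 1
    rw [hp]
    field_simp
  have hB := one_add_mul_self_le_rpow_one_add (by linarith : -1 ≤ z - 1) hp1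
  have e : 1 + (z - 1) = z := by ring
  rw [e, hzp] at hB
  have e3 : (3 : ℝ) ^ s = 9 * (3 : ℝ) ^ (-t) := by
    have : s = 2 + (-t) := by rw [ht]; ring
    rw [this, Real.rpow_add (by norm_num), Real.rpow_two]; norm_num
  have e2 : (2 : ℝ) ^ s = 4 * z := by
    have : s = 2 + (-t) := by rw [ht]; ring
    rw [this, Real.rpow_add (by norm_num), Real.rpow_two, hz]; norm_num
  rw [e3, e2]
  nlinarith [mul_pos (sub_pos.2 hp2) (sub_pos.2 hz1)]

end Phi1

open Phi1

theorem phi_pos {H : ℝ} (h : 1 / 2 < H) (h1 : H < 1) (n : ℕ) : 0 < phi H n := by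
  rcases n with _ | n
  · unfold phi
    have e1 : gam H ((0 : ℕ) : ℤ) = 1 := gam_zero H h
    have e2 := gam_succ H 0
    rw [e1, e2]
    unfold E
    have h0 : ((0 : ℕ) : ℝ) ^ (2 * H) = 0 := by
      rw [Nat.cast_zero]; exact Real.zero_rpow (by linarith)
    have h3 : (2 : ℝ) ^ (2 * H) < 4 := by
      have := Real.rpow_lt_rpow_of_exponent_lt (by norm_num : (1 : ℝ) < 2)
        (by linarith : 2 * H < 2)
      rw [Real.rpow_two] at this
      linarith
    rw [h0]
    simp only [Nat.cast_zero, zero_add, Real.one_rpow]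
    linarith
  · have h3 := mid_G (2 * H) n (by linarith) (by linarith) (Nat.cast_nonneg n)
    unfold phi
    have e1 : gam H ((n + 1 : ℕ) : ℤ) = E (2 * H) n / 2 := by
      rw [← gam_succ]; congr 1
    have e2 : gam H (((n + 1 : ℕ) : ℤ) + 1) = E (2 * H) ((n + 1 : ℕ) : ℝ) / 2 := gam_succ H (n + 1)
    rw [e1, e2]
    unfold E
    unfold G at h3
    push_cast
    have a1 : (n : ℝ) + 1 + 2 = n + 2 + 1 := by ring
    have a2 : (n : ℝ) + 1 + 1 = n + 2 := by ring
    rw [a1, a2]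
    rw [a2] at h3
    linarith

theorem dlt_one_neg {H : ℝ} (h : 1 / 2 < H) (h1 : H < 1) : dlt H 1 < 0 := by
  unfold dlt
  have e1 := gam_succ H 0
  have e2 := gam_succ H 1
  have e3 := gam_zero H h
  have h0 : (0 : ℝ) ^ (2 * H) = 0 := Real.zero_rpow (by linarith)
  have ht := three_two (2 * H) (by linarith)
  unfold E at e1 e2
  norm_num [h0] at e1 e2 ⊢
  rw [e1, e2, e3]
  linarith

theorem dlt_nonpos {H : ℝ} (h : 1 / 2 < H) (h1 : H < 1) {j : ℤ} (hj : j ≠ 0) : dlt H j ≤ 0 := by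
  have key : ∀ n : ℕ, dlt H ((n : ℤ) + 1) ≤ 0 := by
    intro n
    rcases n with _ | n
    · have := dlt_one_neg h h1
      simpa using this.le
    · unfold dlt
      have e1 : gam H (((n + 1 : ℕ) : ℤ) + 1) = E (2 * H) ((n : ℝ) + 1) / 2 := by
        rw [gam_succ]; push_cast; rfl
      have e2 : gam H (((n + 1 : ℕ) : ℤ) + 1 + 1) = E (2 * H) ((n : ℝ) + 2) / 2 := by
        have := gam_succ H (n + 2)
        have a : (((n + 2 : ℕ) : ℤ) + 1) = ((n + 1 : ℕ) : ℤ) + 1 + 1 := by push_cast; ring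
        rw [a] at this
        rw [this]; push_cast; rfl
      have e3 : gam H (((n + 1 : ℕ) : ℤ) + 1 - 1) = E (2 * H) (n : ℝ) / 2 := by
        have a : (((n + 1 : ℕ) : ℤ) + 1 - 1) = (n : ℤ) + 1 := by push_cast; ring
        rw [a, gam_succ]
      rw [e1, e2, e3]
      have := mid_E (2 * H) n (by linarith) (by linarith) (Nat.cast_nonneg n)
      linarith
  rcases lt_or_gt_of_ne hj with h3 | h3
  · obtain ⟨n, hn⟩ := Int.eq_ofNat_of_zero_le (by omega : 0 ≤ -j - 1)
    have : -j = (n : ℤ) + 1 := by omega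
    rw [← dlt_neg, this]
    exact key n
  · obtain ⟨n, hn⟩ := Int.eq_ofNat_of_zero_le (by omega : 0 ≤ j - 1)
    have : j = (n : ℤ) + 1 := by omega
    rw [this]
    exact key n

theorem row {H : ℝ} (i n : ℕ) :
    ∑ m ∈ range (i + n + 1), dlt H ((i : ℤ) - (m : ℤ)) = phi H i + phi H n := by
  have h1 : ∀ m : ℕ, dlt H ((i : ℤ) - (m : ℤ)) =
      (fun m : ℕ => gam H ((i : ℤ) - m) - gam H ((i : ℤ) - m + 1)) m -
      (fun m : ℕ => gam H ((i : ℤ) - m) - gam H ((i : ℤ) - m + 1)) (m + 1) := by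
    intro m
    unfold dlt
    simp only
    push_cast
    have e1 : (i : ℤ) - ((m : ℤ) + 1) = (i : ℤ) - m - 1 := by ring
    have e2 : (i : ℤ) - (m : ℤ) - 1 + 1 = (i : ℤ) - m := by ring
    rw [e1, e2]
    ring
  rw [sum_congr rfl (fun m _ => h1 m), sum_range_sub']
  beta_reduce
  push_cast
  unfold phi
  have e1 : (i : ℤ) - ((i : ℤ) + (n : ℤ) + 1) = -((n : ℤ) + 1) := by ring
  have e2 : -((n : ℤ) + 1) + 1 = -(n : ℤ) := by ring
  rw [e1, e2, gam_neg, gam_neg]
  simp only [sub_zero]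
  ring

theorem gam_nonneg {H : ℝ} (h : 1 / 2 < H) (h1 : H < 1) (j : ℤ) : 0 ≤ gam H j := by
  have key : ∀ n : ℕ, 0 ≤ gam H (n : ℤ) := by
    intro n
    rcases n with _ | n
    · have := gam_zero H h
      simp [this]
    · have e1 : gam H ((n + 1 : ℕ) : ℤ) = E (2 * H) n / 2 := by
        rw [← gam_succ]; congr 1
      rw [e1]
      have hc := (convexOn_rpow (p := 2 * H) (by linarith)).2 (Set.mem_Ici.2 (Nat.cast_nonneg n))
        (Set.mem_Ici.2 (by positivity : (0 : ℝ) ≤ (n : ℝ) + 2))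
        (by norm_num : (0 : ℝ) ≤ 1 / 2) (by norm_num : (0 : ℝ) ≤ 1 / 2) (by norm_num)
      have e : (1 / 2 : ℝ) • (n : ℝ) + (1 / 2 : ℝ) • ((n : ℝ) + 2) = n + 1 := by
        simp only [smul_eq_mul]; ring
      rw [e] at hc
      simp only [smul_eq_mul] at hc
      unfold E
      linarith
  rcases le_total 0 j with h3 | h3
  · obtain ⟨n, rfl⟩ := Int.eq_ofNat_of_zero_le h3
    exact key n
  · obtain ⟨n, hn⟩ := Int.eq_ofNat_of_zero_le (by omega : 0 ≤ -j)
    rw [← gam_neg, hn]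
    exact key n

end Pool.Agent.K4H25.FH
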