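import Mathlib
import Pool.Agent.K4H23.NZ.Spec

set_option autoImplicit false

open Finset Pointwise

namespace Pool.Agent.K4H23.NZ

theorem c3 {G : ℝ → ℝ} (hG : ConcaveOn ℝ (Set.Ici 0) G) (h0 : 0 < G 0) {n u c : ℝ} (k : ℕ)
    (hk : 1 ≤ k) (hn : 0 < n) (h1 : (k : ℝ) * u < n) (h2 : n < ((k : ℝ) + 1) * u)
    (hV1 : c ≤ ((k : ℝ) + 1) * G (n / k)) (hV2 : c ≤ ((k : ℝ) + 2) * G (n / (k + 1))) :
    c < ((k : ℝ) + 1) * G u + G (n - k * u) := by
  have hk0 : (0 : ℝ) < k := by exact_mod_cast hk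
  have hk1 : (0 : ℝ) < (k : ℝ) + 1 := by positivity
  set x : ℝ := n / (k + 1) with hx
  set y : ℝ := n / k with hy
  have hx0 : 0 < x := by positivity
  have hy0 : 0 < y := by positivity
  have exn : ((k : ℝ) + 1) * x = n := by rw [hx]; field_simp
  have eyn : (k : ℝ) * y = n := by rw [hy]; field_simp
  have hxu : x < u := by
    by_contra h
    push Not at h
    have := mul_le_mul_of_nonneg_left h hk1.le
    linarith
  have huy : u < y := by
    by_contra h
    push Not at h
    have := mul_le_mul_of_nonneg_left h hk0.le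
    linarith
  set a : ℝ := (y - u) / (y - x) with ha
  have hyx : 0 < y - x := by linarith
  have ha0 : 0 < a := div_pos (by linarith) hyx
  have ha1 : a < 1 := by rw [ha, div_lt_one hyx]; linarith
  have hau : a * x + (1 - a) * y = u := by
    have : a * (y - x) = y - u := by rw [ha]; field_simp
    linarith
  have haw : a * x + (1 - a) * 0 = n - k * u := by
    rw [← hau, mul_add, ← exn]
    have h3 : (k : ℝ) * ((1 - a) * y) = (1 - a) * (((k : ℝ) + 1) * x) := by
      rw [exn, ← eyn]; ring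
    rw [h3]
    ring
  have g1 := hG.2 (Set.mem_Ici.2 hx0.le) (Set.mem_Ici.2 hy0.le) ha0.le (by linarith : 0 ≤ 1 - a)
    (by ring)
  have g2 := hG.2 (Set.mem_Ici.2 hx0.le) (Set.mem_Ici.2 (le_refl (0 : ℝ))) ha0.le
    (by linarith : 0 ≤ 1 - a) (by ring)
  simp only [smul_eq_mul] at g1 g2
  rw [hau] at g1
  rw [haw] at g2
  have g3 := mul_le_mul_of_nonneg_left g1 hk1.le
  have g4 := mul_le_mul_of_nonneg_left hV2 ha0.le
  have g5 := mul_le_mul_of_nonneg_left hV1 (by linarith : 0 ≤ 1 - a)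
  have g6 : 0 < (1 - a) * G 0 := mul_pos (by linarith) h0
  nlinarith

end Pool.Agent.K4H23.NZ
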