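import Mathlib
import Pool.Agent.K4H23.NZ.Spec

set_option autoImplicit false

open Finset Pointwise

namespace Pool.Agent.K4H23.NZ

theorem s1 {e : ℕ} (m : ℕ) (B : Finset (Fin (e + 1) → ℤ)) :
    B.card + m * (B.image Fin.tail).card ≤ (B + seg e m).card := by
  classical
  have htop : ∀ y ∈ B.image Fin.tail, ∃ x ∈ B, Fin.tail x = y ∧
      ∀ x' ∈ B, Fin.tail x' = y → x' 0 ≤ x 0 := by
    intro y hy
    obtain ⟨x0, hx0, hx0y⟩ := Finset.mem_image.1 hy
    obtain ⟨x, hx, hmax⟩ := Finset.exists_max_image (B.filter fun x => Fin.tail x = y)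
      (fun x => x 0) ⟨x0, Finset.mem_filter.2 ⟨hx0, hx0y⟩⟩
    rw [Finset.mem_filter] at hx
    exact ⟨x, hx.1, hx.2, fun x' hx' hy' => hmax x' (Finset.mem_filter.2 ⟨hx', hy'⟩)⟩
  choose! X hXB hXt hXm using htop
  let F : (Fin e → ℤ) × ℕ → (Fin (e + 1) → ℤ) := fun z => Fin.cons (X z.1 0 + (z.2 : ℤ)) z.1
  set T : Finset ((Fin e → ℤ) × ℕ) := (B.image Fin.tail) ×ˢ (Finset.Icc 1 m) with hT
  have hinj : Set.InjOn F (T : Set ((Fin e → ℤ) × ℕ)) := by
    rintro ⟨y, i⟩ _ ⟨y', i'⟩ _ h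
    have h' : (Fin.cons (X y 0 + (i : ℤ)) y : Fin (e + 1) → ℤ) =
        Fin.cons (X y' 0 + (i' : ℤ)) y' := h
    have h1 : y = y' := by
      have := congrArg Fin.tail h'
      rwa [Fin.tail_cons, Fin.tail_cons] at this
    subst h1
    have h2 := congrFun h' 0
    rw [Fin.cons_zero, Fin.cons_zero] at h2
    have h3 : i = i' := by omega
    rw [h3]
  have hcard : (T.image F).card = m * (B.image Fin.tail).card := by
    rw [Finset.card_image_of_injOn hinj, hT, Finset.card_product, Nat.card_Icc]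
    rw [Nat.add_sub_cancel, mul_comm]
  have hdisj : Disjoint B (T.image F) := by
    rw [Finset.disjoint_right]
    intro z hz hzB
    obtain ⟨⟨y, i⟩, hyi, rfl⟩ := Finset.mem_image.1 hz
    rw [hT, Finset.mem_product, Finset.mem_Icc] at hyi
    have h1 := hXm y hyi.1 (F (y, i)) hzB (Fin.tail_cons _ _)
    have h2 : F (y, i) 0 = X y 0 + (i : ℤ) := Fin.cons_zero _ _
    rw [h2] at h1
    have h3 : 1 ≤ i := hyi.2.1
    omega
  have hseg : ∀ i : ℕ, i ≤ m → (Fin.cons (i : ℤ) 0 : Fin (e + 1) → ℤ) ∈ seg e m := by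
    intro i hi
    unfold seg
    rw [Finset.mem_Icc]
    constructor
    · intro j
      refine Fin.cases ?_ (fun j => ?_) j
      · rw [Fin.cons_zero]; exact Int.natCast_nonneg i
      · rw [Fin.cons_succ]; exact le_rfl
    · intro j
      refine Fin.cases ?_ (fun j => ?_) j
      · rw [Fin.cons_zero, Fin.cons_zero]; exact Int.ofNat_le.2 hi
      · rw [Fin.cons_succ, Fin.cons_succ]
  have hsub : B ∪ T.image F ⊆ B + seg e m := by
    intro z hz
    rcases Finset.mem_union.1 hz with hz | hz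
    · refine Finset.mem_add.2 ⟨z, hz, _, hseg 0 (Nat.zero_le m), ?_⟩
      funext j
      refine Fin.cases ?_ (fun j => ?_) j
      · rw [Pi.add_apply, Fin.cons_zero]; simp
      · rw [Pi.add_apply, Fin.cons_succ]; simp
    · obtain ⟨⟨y, i⟩, hyi, rfl⟩ := Finset.mem_image.1 hz
      rw [hT, Finset.mem_product, Finset.mem_Icc] at hyi
      refine Finset.mem_add.2 ⟨X y, hXB y hyi.1, _, hseg i hyi.2.2, ?_⟩
      funext j
      refine Fin.cases ?_ (fun j => ?_) j
      · rw [Pi.add_apply, Fin.cons_zero]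
        exact (Fin.cons_zero (α := fun _ => ℤ) (X y 0 + (i : ℤ)) y).symm
      · rw [Pi.add_apply, Fin.cons_succ]
        have h1 : F (y, i) j.succ = y j := Fin.cons_succ _ _ _
        have h2 : X y j.succ = y j := congrFun (hXt y hyi.1) j
        rw [h1, h2]
        simp
  calc B.card + m * (B.image Fin.tail).card = (B ∪ T.image F).card := by
        rw [Finset.card_union_of_disjoint hdisj, hcard]
    _ ≤ _ := Finset.card_le_card hsub

end Pool.Agent.K4H23.NZ
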